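import Pool.Agent.Helper69.SW.St

/-!
# Project SW (MP_65faa7, bulk case, block S): module S6, uniform decay
-/

set_option autoImplicit false

open scoped BigOperators ENNReal Topology
open Pool.LE Pool.NL Pool.CL Pool.CB Filter

namespace Pool.SW

/-- (S6) uniform decay -/
theorem hS6 (hS5 : StS5) (hB2 : StB2) (hJen : StJen) (hFU : StFU) (hUU : StUU) (hUp : StUp) :
    Pool.CB.StS6 := by
  intro d V c θ θ₂ hd hV hc hθ hθ₂ hfin η₁ hη₁
  have hd1 : 1 ≤ d := by omega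
  -- intermediate arguments
  obtain ⟨θa, h1, h2⟩ : ∃ θa : ℝ, θ < θa ∧ θa < θ₂ := exists_between hθ₂
  have hθa : 0 < θa := hθ.trans h1
  set q : ℝ := (θa + θ₂) / (2 * θa) with hq
  have hq1 : 1 < q := by
    rw [hq, lt_div_iff₀ (by positivity)]
    linarith
  have hq0 : 0 < q := by linarith
  have hqθ : q * θa = (θa + θ₂) / 2 := by
    rw [hq]
    field_simp
  have hqθ2 : q * θa < θ₂ := by rw [hqθ]; linarith
  have hqθ0 : 0 < q * θa := by positivity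
  set q' : ℝ := q / (q - 1) with hq'
  have hq'0 : 0 < q' := div_pos hq0 (by linarith)
  have hq'inv : 1 / q' = (q - 1) / q := by
    rw [hq']
    exact one_div_div _ _
  have hqq : 1 / q + 1 / q' = 1 := by
    rw [hq'inv, ← add_div, div_eq_one_iff_eq hq0.ne']
    ring
  obtain ⟨K₅, hK₅, n₅, hn₅, h5⟩ := hS5 d V c (q * θa) θ₂ hd hV hc hqθ0 hqθ2
  obtain ⟨κ, η₂, C, hκ, hη₂, hC, n₂, hn₂, hb⟩ := hB2 d V c (q' * θa) hd hV hc (by positivity)
  obtain ⟨CF, hCF, hF⟩ := hFU θ θa hθ h1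
  have hK' : 0 < CF * (K₅ / q + κ * C / q') := by positivity
  refine ⟨min η₁ η₂, CF * (K₅ / q + κ * C / q'), lt_min hη₁ hη₂, min_le_left _ _, hK', ?_⟩
  intro M hM
  obtain ⟨n₁, hn₁, hfM⟩ := hfin M hM
  refine ⟨max n₁ (max n₅ n₂), le_trans hn₁ (le_max_left _ _), ?_⟩
  intro n hn N x hx
  have e1 : n₁ ≤ n := le_trans (le_max_left _ _) hn
  have e5 : n₅ ≤ n := le_trans (le_trans (le_max_left _ _) (le_max_right _ _)) hn
  have e2 : n₂ ≤ n := le_trans (le_trans (le_max_right _ _) (le_max_right _ _)) hn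
  have hn0 : 1 ≤ n := hn₁.trans e1
  have hη0 : 0 ≤ min η₁ η₂ := (lt_min hη₁ hη₂).le
  have hsB : ∀ y : Zd d, 0 ≤ sB n y := by
    intro y
    unfold sB ind
    split_ifs
    · exact zero_le_one
    · exact le_rfl
  have hrr : ∀ y : Zd d, 0 < rr n y := by
    intro y
    unfold rr
    positivity
  have hBd2 : Bd (Lam d n M) n c V (sB n) θ₂ := hfM n e1
  obtain ⟨-, u2, u3⟩ := hUU d n (Lam d n M) c V (sB n) hd1 hn0 hc hV hsB
  have hBdq : Bd (Lam d n M) n c V (sB n) (q * θa) := (u2 (q * θa) θ₂ hqθ0.le hqθ2.le hBd2).1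
  obtain ⟨u4, -, -, -, u5⟩ := u3 (q * θa) hqθ0.le hBdq
  have hSup1 : Sup (Lam d n M) n c V (sB n) (q * θa) (UU (Lam d n M) n c V (sB n) (q * θa)) :=
    ⟨fun y => (u4 y).1, fun y hy => (u5 y hy).ge⟩
  obtain ⟨hz, hSup⟩ := hb n e2
  have hSup2 := hSup (min η₁ η₂) (Lam d n M) hη0 (min_le_right _ _)
  have hSup3 := hJen d n (Lam d n M) c V θa q q' (sB n)
    (fun y => min η₁ η₂ * rr n y ^ (-(19 / 4) : ℝ)) _ _ hc hV hq0 hq'0 hqq hSup1 hSup2
  have hfe : ∀ y : Zd d, 0 ≤ fe n (min η₁ η₂) y := by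
    intro y
    unfold fe
    have h3 := hsB y
    have h4 := Real.rpow_nonneg (hrr y).le (-(19 / 4) : ℝ)
    have h5 := mul_nonneg hη0 h4
    linarith
  obtain ⟨-, -, -, -, hup⟩ := hUp d n (Lam d n M) c V θa (fe n (min η₁ η₂)) hd1 hn0 hc hV hθa.le hfe
  have h6 := hup _ hSup3 N x
  have h7 := hF d n (Lam d n M) c V (fe n (min η₁ η₂)) hd1 hn0 hc hV hfe N x
  have h8 := h5 n e5 (Lam d n M) hBd2 x
  have h9 := hz x
  have h10 : UU (Lam d n M) n c V (sB n) (q * θa) x / q ≤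
      K₅ * rr n x ^ (-(11 / 4) : ℝ) / q := div_le_div_of_nonneg_right h8 hq0.le
  have h11 : κ * zt n x ^ (11 / 16 : ℝ) / q' ≤ κ * (C * rr n x ^ (-(11 / 4) : ℝ)) / q' :=
    div_le_div_of_nonneg_right (mul_le_mul_of_nonneg_left h9 hκ.le) hq'0.le
  calc Fp (TS (Lam d n M) n c) V (fe n (min η₁ η₂)) N θ x ≤
        CF * Up (TS (Lam d n M) n c) V (fe n (min η₁ η₂)) N θa x := h7
    _ ≤ CF * (UU (Lam d n M) n c V (sB n) (q * θa) x / q + κ * zt n x ^ (11 / 16 : ℝ) / q') :=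
        mul_le_mul_of_nonneg_left h6 (by linarith)
    _ ≤ CF * (K₅ * rr n x ^ (-(11 / 4) : ℝ) / q + κ * (C * rr n x ^ (-(11 / 4) : ℝ)) / q') :=
        mul_le_mul_of_nonneg_left (add_le_add h10 h11) (by linarith)
    _ = CF * (K₅ / q + κ * C / q') * rr n x ^ (-(11 / 4) : ℝ) := by ring

end Pool.SW
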